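import Mathlib
import Pool.Agent.DAQ.TwinB

/-!
# MP_63d1e7_nt : the witnesses `k` are rarely in a thin set

`k` is admissible for `n` if `1 ≤ k < n / 2` and `φ(k (n - k)) - 1`, `φ(k (n - k)) + 1` are both
prime. We count the pairs `(n, k)`, `n ≤ x`, with `k` or `n - k` in a given set `A`, uniformly
in `A`.
-/

set_option autoImplicit false

open Filter Topology

namespace Pool.Agent.Results.MP_63d1e7_nt.ThinSets

/-- `k` is a witness for `n` as asked for in the problem -/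
def Admissible (n k : ℕ) : Prop :=
  1 ≤ k ∧ 2 * k < n ∧ (Nat.totient (k * (n - k)) - 1).Prime ∧
    (Nat.totient (k * (n - k)) + 1).Prime

open Pool.Agent.DAQ Pool.Agent.TSP in
theorem pairs : ∃ C : ℝ, 0 < C ∧ ∀ (A : Set ℕ) (x : ℕ), 16 ≤ x →
    (({w : ℕ × ℕ | w.1 ≤ x ∧ Admissible w.1 w.2 ∧ (w.2 ∈ A ∨ w.1 - w.2 ∈ A)}.ncard : ℕ) : ℝ) ≤
      C * ((A ∩ Set.Icc 1 x).ncard : ℝ) * x * Real.log (Real.log x) ^ 39 / Real.log x ^ 2 := by
  classical
  obtain ⟨C, hC0, hC⟩ := TW_bound'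
  refine ⟨2 * C, by positivity, ?_⟩
  intro A x hx
  set F : Finset ℕ := (Finset.Icc 1 x).filter (fun k => k ∈ A) with hF
  have hFA : (A ∩ Set.Icc 1 x).ncard = F.card := by
    rw [← Set.ncard_coe_finset]
    congr 1
    ext k
    simp only [hF, Set.mem_inter_iff, Set.mem_Icc, Finset.coe_filter, Finset.mem_Icc,
      Set.mem_ofPred_eq]
    tauto
  set B : ℝ := C * x * Real.log (Real.log x) ^ 39 / Real.log x ^ 2 with hB
  set G1 : Finset (ℕ × ℕ) := F.biUnion fun k => (TW x k).image fun m => (k + m, k) with hG1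
  set G2 : Finset (ℕ × ℕ) := F.biUnion fun j => (TW x j).image fun k => (k + j, k) with hG2
  have hsub : {w : ℕ × ℕ | w.1 ≤ x ∧ Admissible w.1 w.2 ∧ (w.2 ∈ A ∨ w.1 - w.2 ∈ A)} ⊆
      ((G1 ∪ G2 : Finset (ℕ × ℕ)) : Set (ℕ × ℕ)) := by
    rintro ⟨n, k⟩ ⟨hn, ⟨hk, hkn, hp1, hp2⟩, hA⟩
    simp only at hn hk hkn hp1 hp2 hA
    rw [Finset.coe_union, Set.mem_union]
    rcases hA with hA | hA
    · left
      rw [hG1, Finset.mem_coe, Finset.mem_biUnion]
      refine ⟨k, ?_, ?_⟩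
      · rw [hF, Finset.mem_filter, Finset.mem_Icc]
        exact ⟨⟨hk, by omega⟩, hA⟩
      · rw [Finset.mem_image]
        refine ⟨n - k, ?_, ?_⟩
        · rw [TW, Finset.mem_filter, Finset.mem_Icc]
          exact ⟨⟨by omega, by omega⟩, hp1, hp2⟩
        · have h : k + (n - k) = n := by omega
          rw [h]
    · right
      rw [hG2, Finset.mem_coe, Finset.mem_biUnion]
      refine ⟨n - k, ?_, ?_⟩
      · rw [hF, Finset.mem_filter, Finset.mem_Icc]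
        exact ⟨⟨by omega, by omega⟩, hA⟩
      · rw [Finset.mem_image]
        refine ⟨k, ?_, ?_⟩
        · rw [TW, Finset.mem_filter, Finset.mem_Icc, mul_comm (n - k) k]
          exact ⟨⟨hk, by omega⟩, hp1, hp2⟩
        · have h : k + (n - k) = n := by omega
          rw [h]
  have h1 : ({w : ℕ × ℕ | w.1 ≤ x ∧ Admissible w.1 w.2 ∧ (w.2 ∈ A ∨ w.1 - w.2 ∈ A)}.ncard) ≤
      G1.card + G2.card := by
    refine (Set.ncard_le_ncard hsub (Finset.finite_toSet _)).trans ?_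
    rw [Set.ncard_coe_finset]
    exact Finset.card_union_le _ _
  have hcard : ∀ k ∈ F, ((TW x k).card : ℝ) ≤ B := by
    intro k hk
    rw [hF, Finset.mem_filter, Finset.mem_Icc] at hk
    exact hC x k hx hk.1.1 hk.1.2
  have hsum : ∑ k ∈ F, ((TW x k).card : ℝ) ≤ F.card * B := by
    rw [← nsmul_eq_mul]
    exact Finset.sum_le_card_nsmul _ _ _ hcard
  have h2 : (G1.card : ℝ) ≤ F.card * B := by
    have e1 : G1.card ≤ ∑ k ∈ F, (TW x k).card :=
      Finset.card_biUnion_le.trans (Finset.sum_le_sum fun _ _ => Finset.card_image_le)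
    have e2 : (G1.card : ℝ) ≤ ∑ k ∈ F, ((TW x k).card : ℝ) := by exact_mod_cast e1
    exact e2.trans hsum
  have h3 : (G2.card : ℝ) ≤ F.card * B := by
    have e1 : G2.card ≤ ∑ k ∈ F, (TW x k).card :=
      Finset.card_biUnion_le.trans (Finset.sum_le_sum fun _ _ => Finset.card_image_le)
    have e2 : (G2.card : ℝ) ≤ ∑ k ∈ F, ((TW x k).card : ℝ) := by exact_mod_cast e1
    exact e2.trans hsum
  have h4 : (({w : ℕ × ℕ | w.1 ≤ x ∧ Admissible w.1 w.2 ∧
      (w.2 ∈ A ∨ w.1 - w.2 ∈ A)}.ncard : ℕ) : ℝ) ≤ G1.card + G2.card := by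
    exact_mod_cast h1
  rw [hFA]
  have h5 : 2 * C * (F.card : ℝ) * x * Real.log (Real.log x) ^ 39 / Real.log x ^ 2
      = F.card * B + F.card * B := by
    rw [hB]
    ring
  rw [h5]
  exact h4.trans (add_le_add h2 h3)

theorem ends (C : ℝ) (hC : ∀ (A : Set ℕ) (x : ℕ), 16 ≤ x →
    (({w : ℕ × ℕ | w.1 ≤ x ∧ Admissible w.1 w.2 ∧ (w.2 ∈ A ∨ w.1 - w.2 ∈ A)}.ncard : ℕ) : ℝ) ≤
      C * ((A ∩ Set.Icc 1 x).ncard : ℝ) * x * Real.log (Real.log x) ^ 39 / Real.log x ^ 2)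
    (hC0 : 0 < C) (ε : ℝ) (hε : 0 < ε) (hε2 : ε < 2) :
    Tendsto (fun x : ℕ => (({n : ℕ | n ≤ x ∧ ∃ k, Admissible n k ∧
      (k : ℝ) ≤ Real.log n ^ (2 - ε)}.ncard : ℕ) : ℝ) / x) atTop (𝓝 0) := by
  classical
  have hlog : Tendsto (fun x : ℕ => Real.log x) atTop atTop :=
    Real.tendsto_log_atTop.comp tendsto_natCast_atTop_atTop
  have hlim : Tendsto (fun x : ℕ => C * (Real.log (Real.log x) ^ 39 / Real.log x ^ ε)) atTop
      (𝓝 0) := by
    have h1 : Tendsto (fun L : ℝ => Real.log L ^ (39 : ℝ) / L ^ ε) atTop (𝓝 0) :=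
      (isLittleO_log_rpow_rpow_atTop 39 hε).tendsto_div_nhds_zero
    have h2 : Tendsto (fun L : ℝ => C * (Real.log L ^ 39 / L ^ ε)) atTop (𝓝 (C * 0)) := by
      apply Tendsto.const_mul
      refine h1.congr fun L => ?_
      rw [show (39 : ℝ) = ((39 : ℕ) : ℝ) by norm_num, Real.rpow_natCast]
    rw [mul_zero] at h2
    exact h2.comp hlog
  refine squeeze_zero' (Eventually.of_forall fun x => by positivity) ?_ hlim
  filter_upwards [eventually_ge_atTop 16] with x hx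
  obtain ⟨e1, e2⟩ := Pool.Agent.TSP.log_log_ge hx
  have hx0 : (0 : ℝ) < x := by exact_mod_cast (by omega : 0 < x)
  have hL : 0 < Real.log x := by linarith
  have hl : 0 ≤ Real.log (Real.log x) := by linarith
  set K : ℝ := Real.log x ^ (2 - ε) with hK
  have hK0 : 0 ≤ K := Real.rpow_nonneg hL.le _
  set A : Set ℕ := {k | (k : ℝ) ≤ K} with hA
  have h1 := hC A x hx
  have hAc : ((A ∩ Set.Icc 1 x).ncard : ℝ) ≤ K := by
    have h2 : A ∩ Set.Icc 1 x ⊆ ((Finset.Icc 1 ⌊K⌋₊ : Finset ℕ) : Set ℕ) := by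
      rintro k ⟨hk1, hk2⟩
      rw [Finset.coe_Icc]
      exact ⟨hk2.1, Nat.le_floor hk1⟩
    have h3 := Set.ncard_le_ncard h2 (Finset.finite_toSet _)
    rw [Set.ncard_coe_finset, Nat.card_Icc, Nat.add_sub_cancel] at h3
    calc ((A ∩ Set.Icc 1 x).ncard : ℝ) ≤ (⌊K⌋₊ : ℝ) := by exact_mod_cast h3
      _ ≤ K := Nat.floor_le hK0
  set S : Set ℕ := {n : ℕ | n ≤ x ∧ ∃ k, Admissible n k ∧ (k : ℝ) ≤ Real.log n ^ (2 - ε)} with hS
  set T : Set (ℕ × ℕ) :=
    {w : ℕ × ℕ | w.1 ≤ x ∧ Admissible w.1 w.2 ∧ (w.2 ∈ A ∨ w.1 - w.2 ∈ A)} with hT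
  have hTfin : T.Finite := by
    apply Set.Finite.subset (Finset.finite_toSet (Finset.range (x + 1) ×ˢ Finset.range (x + 1)))
    rintro ⟨n, k⟩ ⟨hn, ⟨hk, hkn, -⟩, -⟩
    simp only at hn hkn
    rw [Finset.mem_coe, Finset.mem_product, Finset.mem_range, Finset.mem_range]
    exact ⟨by simp only; omega, by simp only; omega⟩
  have hST : S ⊆ Prod.fst '' T := by
    rintro n ⟨hn, k, hk, hkk⟩
    refine ⟨(n, k), ⟨hn, hk, ?_⟩, rfl⟩
    left
    have hn1 : 1 ≤ n := by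
      obtain ⟨h6, h7, -⟩ := hk
      omega
    have h4 : Real.log n ^ (2 - ε) ≤ K := by
      rw [hK]
      apply Real.rpow_le_rpow (Real.log_natCast_nonneg n) _ (by linarith)
      exact Real.log_le_log (by exact_mod_cast hn1) (by exact_mod_cast hn)
    exact hkk.trans h4
  have h5 : S.ncard ≤ T.ncard :=
    (Set.ncard_le_ncard hST (hTfin.image _)).trans (Set.ncard_image_le hTfin)
  have h6 : (S.ncard : ℝ) ≤ T.ncard := by exact_mod_cast h5
  rw [div_le_iff₀ hx0]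
  refine (h6.trans h1).trans ?_
  have h7 : C * ((A ∩ Set.Icc 1 x).ncard : ℝ) * x * Real.log (Real.log x) ^ 39 / Real.log x ^ 2
      ≤ C * K * x * Real.log (Real.log x) ^ 39 / Real.log x ^ 2 := by
    apply div_le_div_of_nonneg_right _ (by positivity)
    gcongr
  refine h7.trans (le_of_eq ?_)
  have h8 : K = Real.log x ^ 2 / Real.log x ^ ε := by
    rw [hK, Real.rpow_sub hL, Real.rpow_two]
  have h9 : Real.log x ^ ε ≠ 0 := (Real.rpow_pos_of_pos hL _).ne'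
  rw [h8]
  field_simp

/-- **Theorem.** There is a constant `C` such that for every set `A` of natural numbers and every
`x ≥ 16` there are at most `C |A ∩ [1, x]| x (log log x)^39 / (log x)^2` pairs `(n, k)` with
`n ≤ x`, `k` admissible for `n`, and `k ∈ A` or `n - k ∈ A`. In particular, for every
`0 < ε < 2`, the set of the `n` which have an admissible `k ≤ (log n)^(2 - ε)` has density
zero. -/
theorem result :
    (∃ C : ℝ, 0 < C ∧ ∀ (A : Set ℕ) (x : ℕ), 16 ≤ x →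
      (({w : ℕ × ℕ | w.1 ≤ x ∧ Admissible w.1 w.2 ∧ (w.2 ∈ A ∨ w.1 - w.2 ∈ A)}.ncard : ℕ) : ℝ) ≤
        C * ((A ∩ Set.Icc 1 x).ncard : ℝ) * x * Real.log (Real.log x) ^ 39 / Real.log x ^ 2) ∧
    ∀ ε : ℝ, 0 < ε → ε < 2 →
      Tendsto (fun x : ℕ => (({n : ℕ | n ≤ x ∧ ∃ k, Admissible n k ∧
        (k : ℝ) ≤ Real.log n ^ (2 - ε)}.ncard : ℕ) : ℝ) / x) atTop (𝓝 0) := by
  obtain ⟨C, hC0, hC⟩ := pairs
  exact ⟨⟨C, hC0, hC⟩, fun ε hε hε2 => ends C hC hC0 ε hε hε2⟩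

end Pool.Agent.Results.MP_63d1e7_nt.ThinSets
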